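import Pool.Agent.Helper75.EC.Stmts

/-! # Module EXT: the vertices are extremal -/

open MvPolynomial Pool.Agent.Helper75.EC

namespace Pool.Agent.Helper41.EC

theorem EXT_del {n : ℕ} (α β : ℕ) (I : Finset (Fin (n + 3))) (i : Fin (n + 3)) :
    del (Dcls α β I) i = if i ∈ I then 0 else 1 := by
  unfold del Dcls
  dsimp only
  split_ifs <;> ring

theorem EXT_sum {n : ℕ} (I : Finset (Fin (n + 3))) (w : ℝ) :
    ∑ i, (if i ∈ I then (0 : ℝ) else w) = (n + 3 - I.card) * w := by
  have h1 : ∀ i : Fin (n + 3), (if i ∈ I then (0 : ℝ) else w) = w - (if i ∈ I then w else 0) := by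
    intro i
    split_ifs <;> ring
  simp only [h1, Finset.sum_sub_distrib, Finset.sum_ite_mem, Finset.univ_inter, Finset.sum_const,
    Finset.card_univ, Fintype.card_fin, nsmul_eq_mul]
  push_cast
  ring

theorem EXT_sumc {n : ℕ} (I : Finset (Fin (n + 3))) (w : ℝ) :
    ∑ i ∈ Iᶜ, (if i ∈ I then (0 : ℝ) else w) = (n + 3 - I.card) * w := by
  rw [← EXT_sum I w]
  refine Finset.sum_subset (Finset.subset_univ _) fun i _ hi => ?_
  rw [if_pos (by simpa using hi)]

theorem st_EXT : ST_EXT := by
  intro n α β I hI hV x y hx hy s hs hxy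
  have hIr : 2 * (α : ℝ) + β + I.card = n + 2 := by exact_mod_cast hI
  -- the equations
  have ea : x.1 + y.1 = s * α := by
    have := congrArg (fun z : Cls n => z.1) hxy
    simpa [Dcls] using this
  have eb : x.2.1 + y.2.1 = s * β := by
    have := congrArg (fun z : Cls n => z.2.1) hxy
    simpa [Dcls] using this
  have em : ∀ i, x.2.2 i + y.2.2 i = s * (α + β - 1 + if i ∈ I then 1 else 0) := by
    intro i
    have := congrArg (fun z : Cls n => z.2.2 i) hxy
    simpa [Dcls] using this
  have ed : ∀ i, del x i + del y i = if i ∈ I then 0 else s := by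
    intro i
    have h1 := em i
    unfold del
    split_ifs at h1 ⊢
    · linear_combination ea + eb - h1
    · linear_combination ea + eb - h1
  have ew : wt x + wt y = s := by
    have h1 : ∑ i, del x i + ∑ i, del y i = (n + 3 - I.card) * s := by
      rw [← Finset.sum_add_distrib, ← EXT_sum I s]
      exact Finset.sum_congr rfl fun i _ => ed i
    unfold wt
    linear_combination h1 - 2 * ea - eb - s * hIr
  have dx : ∀ i, del x i = if i ∈ I then 0 else wt x := by
    intro i
    have h1 := ed i
    have h2 := hx.d0 i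
    have h3 := hy.d0 i
    have h4 := hx.dw i
    have h5 := hy.dw i
    split_ifs at h1 ⊢
    · linarith
    · linarith
  have dy : ∀ i, del y i = if i ∈ I then 0 else wt y := by
    intro i
    have h1 := ed i
    have h2 := hx.d0 i
    have h3 := hy.d0 i
    have h4 := hx.dw i
    have h5 := hy.dw i
    split_ifs at h1 ⊢
    · linarith
    · linarith
  have sx : 2 * x.1 + x.2.1 = (2 * α + β) * wt x := by
    have h1 : ∑ i, del x i = (n + 3 - I.card) * wt x := by
      rw [← EXT_sum I (wt x)]
      exact Finset.sum_congr rfl fun i _ => dx i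
    have h2 : wt x = ∑ i, del x i - 2 * x.1 - x.2.1 := rfl
    linear_combination h1 + h2 - wt x * hIr
  have sy : 2 * y.1 + y.2.1 = (2 * α + β) * wt y := by
    have h1 : ∑ i, del y i = (n + 3 - I.card) * wt y := by
      rw [← EXT_sum I (wt y)]
      exact Finset.sum_congr rfl fun i _ => dy i
    have h2 : wt y = ∑ i, del y i - 2 * y.1 - y.2.1 := rfl
    linear_combination h1 + h2 - wt y * hIr
  have cx : ∑ i ∈ Iᶜ, del x i = (2 * α + β + 1) * wt x := by
    have h1 : ∑ i ∈ Iᶜ, del x i = (n + 3 - I.card) * wt x := by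
      rw [← EXT_sumc I (wt x)]
      exact Finset.sum_congr rfl fun i _ => dx i
    linear_combination h1 - wt x * hIr
  have cy : ∑ i ∈ Iᶜ, del y i = (2 * α + β + 1) * wt y := by
    have h1 : ∑ i ∈ Iᶜ, del y i = (n + 3 - I.card) * wt y := by
      rw [← EXT_sumc I (wt y)]
      exact Finset.sum_congr rfl fun i _ => dy i
    linear_combination h1 - wt y * hIr
  have cc : (Iᶜ).card = 2 * α + β + 1 := by
    rw [Finset.card_compl, Fintype.card_fin]
    omega
  have hwx : 0 ≤ wt x := by
    by_cases h : ∃ i, i ∉ I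
    · obtain ⟨i, _⟩ := h
      exact (hx.d0 i).trans (hx.dw i)
    · exact (hx.d0 0).trans (hx.dw 0)
  rw [← ew] at ea eb
  -- the extremal functional
  have key : x.1 = α * wt x := by
    rcases hV.2 with h | h | h | h | h
    · -- `β = 0`
      subst h
      have h1 := hx.b0
      have h2 := hy.b0
      push_cast at eb sx
      have h3 : x.2.1 = 0 := by linarith
      linarith
    · -- `β = 1`
      subst h
      have h1 := hx.hL (α + 1) Iᶜ (by rw [cc]; ring)
      have h2 := hy.hL (α + 1) Iᶜ (by rw [cc]; ring)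
      rw [cx] at h1
      rw [cy] at h2
      push_cast at *
      linarith
    · have hβ : (β : ℝ) + 1 = α := by exact_mod_cast h
      have h1 := hx.hA β Iᶜ (by rw [cc]; omega)
      have h2 := hy.hA β Iᶜ (by rw [cc]; omega)
      rw [cx] at h1
      rw [cy] at h2
      rw [← hβ] at ea sx sy h1 h2 ⊢
      linarith
    · have h1 := hx.hB α Iᶜ (by rw [cc]; omega)
      have h2 := hy.hB α Iᶜ (by rw [cc]; omega)
      rw [cx, h] at h1
      rw [cy, h] at h2
      linarith
    · have hβ : (β : ℝ) = α + 1 := by exact_mod_cast h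
      have h1 := hx.t4
      have h2 := hy.t4
      rw [hβ] at eb sx sy
      linarith
  have keyb : x.2.1 = β * wt x := by linear_combination sx - 2 * key
  refine ⟨wt x, hwx, ?_⟩
  refine Prod.ext ?_ (Prod.ext ?_ (funext fun i => ?_))
  · simp only [Dcls, Prod.smul_fst, smul_eq_mul]
    rw [key]
    ring
  · simp only [Dcls, Prod.smul_snd, Prod.smul_fst, smul_eq_mul]
    rw [keyb]
    ring
  · simp only [Dcls, Prod.smul_snd, Pi.smul_apply, smul_eq_mul]
    have h1 := dx i
    unfold del at h1
    split_ifs at h1 ⊢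
    · linear_combination key + keyb - h1
    · linear_combination key + keyb - h1

end Pool.Agent.Helper41.EC
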