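import Pool.Agent.Helper41.EC.UP

/-! # Module LO: the law for the lower bound of `b` -/

open MvPolynomial Pool.Agent.Helper75.EC

namespace Pool.Agent.Helper41.EC

theorem st_LO : ST_LO := by
  intro N δ b hδ0 hδ1 hb0 hS1 hL
  set S : ℝ := ∑ i, δ i with hS
  have hSN : S ≤ N := by
    calc S ≤ ∑ _i : Fin N, (1 : ℝ) := Finset.sum_le_sum fun i _ => hδ1 i
      _ = N := by simp
  have hJS : ∀ J : Finset (Fin N), ∑ i ∈ J, δ i ≤ S := fun J =>
    Finset.sum_le_sum_of_subset_of_nonneg (Finset.subset_univ J) fun i _ _ => hδ0 i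
  have hJc : ∀ J : Finset (Fin N), ∑ i ∈ J, δ i ≤ J.card := fun J => by
    calc ∑ i ∈ J, δ i ≤ ∑ _i ∈ J, (1 : ℝ) := Finset.sum_le_sum fun i _ => hδ1 i
      _ = J.card := by simp
  set j : ℕ := ⌊(S - 1) / 2⌋₊ with hj
  have hj1 : (j : ℝ) ≤ (S - 1) / 2 := Nat.floor_le (by linarith)
  have hj2 : (S - 1) / 2 < j + 1 := Nat.lt_floor_add_one _
  have hmS : ((2 * j + 1 : ℕ) : ℝ) ≤ S := by push_cast; linarith
  have hmS3 : S ≤ ((2 * j + 1 : ℕ) : ℝ) + 2 := by push_cast; linarith
  have hmN : 2 * j + 1 ≤ N := by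
    have : ((2 * j + 1 : ℕ) : ℝ) ≤ N := hmS.trans hSN
    exact_mod_cast this
  set m : ℕ := 2 * j + 1 with hm
  have hmj : (m : ℝ) = 2 * j + 1 := by rw [hm]; push_cast; ring
  set h1 : ℝ := min (min 1 (S - m)) ((b + S - m) / 2) with hh1
  have u1 : h1 ≤ 1 := (min_le_left _ _).trans (min_le_left _ _)
  have u2 : h1 ≤ S - m := (min_le_left _ _).trans (min_le_right _ _)
  have u3 : h1 ≤ (b + S - m) / 2 := min_le_right _ _
  have l1 : ∀ J : Finset (Fin N), J.card = m + 1 → ∑ i ∈ J, δ i - m ≤ h1 := by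
    intro J hJ
    refine le_min (le_min ?_ ?_) ?_
    · have := hJc J
      rw [hJ] at this
      push_cast at this
      linarith
    · have := hJS J
      linarith
    · have := hL (j + 1) J (by rw [hJ, hm]; ring)
      push_cast at this
      rw [hmj]
      linarith
  have l3 : (S - m) / 2 ≤ h1 := by
    refine le_min (le_min ?_ ?_) ?_
    · linarith
    · linarith
    · linarith
  have hcard : (Finset.univ : Finset (Fin N)).card = N := by simp
  have w1 : N < m + 1 → 2 * h1 - (S - m) = 0 := by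
    intro h
    have hN : N = m := by omega
    have : S ≤ m := by rw [← hN]; exact hSN
    linarith
  have w2 : N < m + 2 → S - m - h1 = 0 := by
    intro h
    rcases Nat.lt_or_ge N (m + 1) with h' | h'
    · have hN : N = m := by omega
      have : S ≤ m := by rw [← hN]; exact hSN
      linarith
    · have hN : N = m + 1 := by omega
      have h3 := l1 Finset.univ (by rw [hcard, hN])
      rw [← hS] at h3
      linarith
  refine ⟨_, UP_law δ hδ0 hδ1 m (by omega) hmN (1 - h1) (2 * h1 - (S - m))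
    (S - m - h1) 0 (by linarith) (by linarith) (by linarith)
    le_rfl w1 w2 (fun _ => rfl) (by ring) (by rw [← hS]; ring) ?_ ?_, ?_⟩
  · intro J hJ
    have := l1 J hJ
    linarith
  · intro J hJ
    have h4 := hJS J
    linarith
  · rw [UP_sum N m (1 - h1) (2 * h1 - (S - m)) (S - m - h1) 0
      (fun h => absurd h (by omega)) w1 w2 (fun _ => rfl) bmin]
    have e0 : bmin m = 0 := by
      unfold bmin
      rw [if_neg (by omega)]
    have e1 : bmin (m + 1) = 1 := by
      unfold bmin
      rw [if_pos (by omega)]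
    have e2 : bmin (m + 2) = 0 := by
      unfold bmin
      rw [if_neg (by omega)]
    rw [e0, e1, e2]
    linarith

end Pool.Agent.Helper41.EC
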