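import Pool.Agent.Helper75.EC.Stmts

/-! # Module UP: the law for the upper bound of `b` -/

open MvPolynomial Pool.Agent.Helper75.EC

namespace Pool.Agent.Helper41.EC

theorem UP_sum (N m : ℕ) (a0 a1 a2 a3 : ℝ) (h0 : N < m → a0 = 0) (h1 : N < m + 1 → a1 = 0)
    (h2 : N < m + 2 → a2 = 0) (h3 : N < m + 3 → a3 = 0) (g : ℕ → ℝ) :
    ∑ k ∈ Finset.range (N + 1), ((if k = m then a0 else 0) + (if k = m + 1 then a1 else 0) +
      (if k = m + 2 then a2 else 0) + (if k = m + 3 then a3 else 0)) * g k =
    a0 * g m + a1 * g (m + 1) + a2 * g (m + 2) + a3 * g (m + 3) := by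
  have key : ∀ (c : ℕ) (a : ℝ), (N < c → a = 0) →
      ∑ k ∈ Finset.range (N + 1), (if k = c then a else 0) * g k = a * g c := by
    intro c a h
    simp only [ite_mul, zero_mul, Finset.sum_ite_eq', Finset.mem_range]
    split_ifs with hc
    · rfl
    · rw [h (by omega), zero_mul]
  simp only [add_mul, Finset.sum_add_distrib]
  rw [key m a0 h0, key _ a1 h1, key _ a2 h2, key _ a3 h3]

theorem UP_ite (m k : ℕ) (a0 a1 a2 a3 : ℝ)
    (h : (if k = m then a0 else 0) + (if k = m + 1 then a1 else 0) +
      (if k = m + 2 then a2 else 0) + (if k = m + 3 then a3 else 0) ≠ 0) :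
    (k = m ∧ a0 ≠ 0) ∨ (k = m + 1 ∧ a1 ≠ 0) ∨ (k = m + 2 ∧ a2 ≠ 0) ∨ (k = m + 3 ∧ a3 ≠ 0) := by
  by_cases k0 : k = m
  · left
    subst k0
    refine ⟨rfl, fun h0 => h ?_⟩
    simp [h0]
  · by_cases k1 : k = m + 1
    · right; left
      subst k1
      refine ⟨rfl, fun h0 => h ?_⟩
      simp [h0]
    · by_cases k2 : k = m + 2
      · right; right; left
        subst k2
        refine ⟨rfl, fun h0 => h ?_⟩
        simp [h0]
      · by_cases k3 : k = m + 3
        · right; right; right
          subst k3
          refine ⟨rfl, fun h0 => h ?_⟩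
          simp [h0]
        · exact absurd (by simp [k0, k1, k2, k3]) h

/-- The four point law. -/
theorem UP_law {N : ℕ} (δ : Fin N → ℝ) (hδ0 : ∀ i, 0 ≤ δ i) (hδ1 : ∀ i, δ i ≤ 1) (m : ℕ)
    (hm1 : 1 ≤ m) (hmN : m ≤ N) (a0 a1 a2 a3 : ℝ) (p0 : 0 ≤ a0) (p1 : 0 ≤ a1) (p2 : 0 ≤ a2)
    (p3 : 0 ≤ a3) (h1 : N < m + 1 → a1 = 0)
    (h2 : N < m + 2 → a2 = 0) (h3 : N < m + 3 → a3 = 0) (htot : a0 + a1 + a2 + a3 = 1)
    (hmean : (m : ℝ) + a1 + 2 * a2 + 3 * a3 = ∑ i, δ i)
    (e1 : ∀ J : Finset (Fin N), J.card = m + 1 → ∑ i ∈ J, δ i ≤ m + a1 + a2 + a3)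
    (e2 : ∀ J : Finset (Fin N), J.card = m + 2 → ∑ i ∈ J, δ i ≤ m + a1 + 2 * a2 + 2 * a3) :
    Law δ (fun k => (if k = m then a0 else 0) + (if k = m + 1 then a1 else 0) +
      (if k = m + 2 then a2 else 0) + (if k = m + 3 then a3 else 0)) := by
  have h0 : N < m → a0 = 0 := fun h => absurd h (not_lt.mpr hmN)
  refine ⟨?_, ?_, ?_, ?_, ?_⟩
  · intro k
    have : ∀ (c : ℕ) (a : ℝ), 0 ≤ a → 0 ≤ (if k = c then a else 0) := by
      intro c a ha
      split_ifs
      · exact ha
      · exact le_rfl
    have q0 := this m a0 p0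
    have q1 := this (m + 1) a1 p1
    have q2 := this (m + 2) a2 p2
    have q3 := this (m + 3) a3 p3
    positivity
  · intro k hk
    rcases UP_ite m k a0 a1 a2 a3 hk with ⟨h, ha⟩ | ⟨h, ha⟩ | ⟨h, ha⟩ | ⟨h, ha⟩
    · exact ⟨by omega, by omega⟩
    · exact ⟨by omega, by by_contra hc; exact ha (h1 (by omega))⟩
    · exact ⟨by omega, by by_contra hc; exact ha (h2 (by omega))⟩
    · exact ⟨by omega, by by_contra hc; exact ha (h3 (by omega))⟩
  · have := UP_sum N m a0 a1 a2 a3 h0 h1 h2 h3 (fun _ => 1)
    simp only [mul_one] at this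
    rw [this]
    exact htot
  · rw [UP_sum N m a0 a1 a2 a3 h0 h1 h2 h3 (fun k => (k : ℝ)), ← hmean]
    push_cast
    linear_combination (m : ℝ) * htot
  · intro J
    rw [UP_sum N m a0 a1 a2 a3 h0 h1 h2 h3 (fun k => ((min k J.card : ℕ) : ℝ))]
    rcases lt_or_ge J.card (m + 1) with hJ | hJ
    · have t0 : min m J.card = J.card := min_eq_right (by omega)
      have t1 : min (m + 1) J.card = J.card := min_eq_right (by omega)
      have t2 : min (m + 2) J.card = J.card := min_eq_right (by omega)
      have t3 : min (m + 3) J.card = J.card := min_eq_right (by omega)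
      rw [t0, t1, t2, t3]
      have : ∑ i ∈ J, δ i ≤ J.card := by
        calc ∑ i ∈ J, δ i ≤ ∑ _i ∈ J, (1 : ℝ) := Finset.sum_le_sum fun i _ => hδ1 i
          _ = J.card := by simp
      calc ∑ i ∈ J, δ i ≤ J.card := this
        _ = (a0 + a1 + a2 + a3) * J.card := by rw [htot, one_mul]
        _ = _ := by ring
    · rcases Nat.lt_or_ge J.card (m + 2) with hJ2 | hJ2
      · have hc : J.card = m + 1 := by omega
        have t0 : min m J.card = m := min_eq_left (by omega)
        have t1 : min (m + 1) J.card = m + 1 := min_eq_left (by omega)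
        have t2 : min (m + 2) J.card = m + 1 := by rw [hc]; exact min_eq_right (by omega)
        have t3 : min (m + 3) J.card = m + 1 := by rw [hc]; exact min_eq_right (by omega)
        rw [t0, t1, t2, t3]
        refine (e1 J hc).trans (le_of_eq ?_)
        push_cast
        linear_combination (-(m : ℝ)) * htot
      · rcases Nat.lt_or_ge J.card (m + 3) with hJ3 | hJ3
        · have hc : J.card = m + 2 := by omega
          have t0 : min m J.card = m := min_eq_left (by omega)
          have t1 : min (m + 1) J.card = m + 1 := min_eq_left (by omega)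
          have t2 : min (m + 2) J.card = m + 2 := min_eq_left (by omega)
          have t3 : min (m + 3) J.card = m + 2 := by rw [hc]; exact min_eq_right (by omega)
          rw [t0, t1, t2, t3]
          refine (e2 J hc).trans (le_of_eq ?_)
          push_cast
          linear_combination (-(m : ℝ)) * htot
        · have t0 : min m J.card = m := min_eq_left (by omega)
          have t1 : min (m + 1) J.card = m + 1 := min_eq_left (by omega)
          have t2 : min (m + 2) J.card = m + 2 := min_eq_left (by omega)
          have t3 : min (m + 3) J.card = m + 3 := min_eq_left (by omega)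
          rw [t0, t1, t2, t3]
          have : ∑ i ∈ J, δ i ≤ ∑ i, δ i :=
            Finset.sum_le_sum_of_subset_of_nonneg (Finset.subset_univ J) fun i _ _ => hδ0 i
          refine this.trans (le_of_eq ?_)
          rw [← hmean]
          push_cast
          linear_combination (-(m : ℝ)) * htot

theorem st_UP : ST_UP := by
  intro N δ b hδ0 hδ1 hb3 hb1 hS1 hA hB
  set S : ℝ := ∑ i, δ i with hS
  have hSN : S ≤ N := by
    calc S ≤ ∑ _i : Fin N, (1 : ℝ) := Finset.sum_le_sum fun i _ => hδ1 i
      _ = N := by simp
  have hJS : ∀ J : Finset (Fin N), ∑ i ∈ J, δ i ≤ S := fun J =>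
    Finset.sum_le_sum_of_subset_of_nonneg (Finset.subset_univ J) fun i _ _ => hδ0 i
  have hJc : ∀ J : Finset (Fin N), ∑ i ∈ J, δ i ≤ J.card := fun J => by
    calc ∑ i ∈ J, δ i ≤ ∑ _i ∈ J, (1 : ℝ) := Finset.sum_le_sum fun i _ => hδ1 i
      _ = J.card := by simp
  rcases lt_or_ge S 2 with hS2 | hS2
  · -- sizes `1` and `2`
    have hN1 : 1 ≤ N := by
      by_contra h
      have : N = 0 := by omega
      rw [this] at hSN
      norm_num at hSN
      linarith
    refine ⟨_, UP_law δ hδ0 hδ1 1 le_rfl hN1 (2 - S) (S - 1) 0 0 (by linarith) (by linarith)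
      le_rfl le_rfl ?_ (fun _ => rfl) (fun _ => rfl) (by ring) (by push_cast; linarith) ?_ ?_, ?_⟩
    · intro h
      have : N = 1 := by omega
      rw [this] at hSN
      push_cast at hSN
      linarith
    · intro J _
      have := hJS J
      push_cast
      linarith
    · intro J _
      have := hJS J
      push_cast
      linarith
    · rw [UP_sum N 1 (2 - S) (S - 1) 0 0 (fun h => absurd h (by omega)) ?_ (fun _ => rfl)
        (fun _ => rfl) bmax]
      · have e1 : bmax 1 = 0 := by norm_num [bmax]
        have e2 : bmax (1 + 1) = 1 := by norm_num [bmax]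
        rw [e1, e2]
        linarith
      · intro h
        have : N = 1 := by omega
        rw [this] at hSN
        push_cast at hSN
        linarith
  · -- `m = 3 j + 2`
    set j : ℕ := ⌊(S - 2) / 3⌋₊ with hj
    have hj1 : (j : ℝ) ≤ (S - 2) / 3 := Nat.floor_le (by linarith)
    have hj2 : (S - 2) / 3 < j + 1 := Nat.lt_floor_add_one _
    have hmS : ((3 * j + 2 : ℕ) : ℝ) ≤ S := by push_cast; linarith
    have hmS3 : S ≤ ((3 * j + 2 : ℕ) : ℝ) + 3 := by push_cast; linarith
    have hmN : 3 * j + 2 ≤ N := by
      have : ((3 * j + 2 : ℕ) : ℝ) ≤ N := hmS.trans hSN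
      exact_mod_cast this
    set m : ℕ := 3 * j + 2 with hm
    have hmj : (m : ℝ) = 3 * j + 2 := by rw [hm]; push_cast; ring
    set h1 : ℝ := min (min 1 (S - m)) ((S + (1 - 2 * m) / 3 - b) / 2) with hh1
    have u1 : h1 ≤ 1 := (min_le_left _ _).trans (min_le_left _ _)
    have u2 : h1 ≤ S - m := (min_le_left _ _).trans (min_le_right _ _)
    have u3 : h1 ≤ (S + (1 - 2 * m) / 3 - b) / 2 := min_le_right _ _
    have l1 : ∀ J : Finset (Fin N), J.card = m + 1 → ∑ i ∈ J, δ i - m ≤ h1 := by
      intro J hJ
      refine le_min (le_min ?_ ?_) ?_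
      · have := hJc J
        rw [hJ] at this
        push_cast at this
        linarith
      · have := hJS J
        linarith
      · have := hA j J (by rw [hJ, hm])
        rw [hmj]
        linarith
    have l2 : ∀ J : Finset (Fin N), J.card = m + 2 → ∑ i ∈ J, δ i - m ≤ 2 * h1 := by
      intro J hJ
      have : (∑ i ∈ J, δ i - m) / 2 ≤ h1 := by
        refine le_min (le_min ?_ ?_) ?_
        · have := hJc J
          rw [hJ] at this
          push_cast at this
          linarith
        · have := hJS J
          linarith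
        · have := hB (j + 1) J (by rw [hJ, hm]; ring)
          push_cast at this
          rw [hmj]
          linarith
      linarith
    have l3 : S - m ≤ 3 * h1 := by
      have : (S - m) / 3 ≤ h1 := by
        refine le_min (le_min ?_ ?_) ?_
        · linarith
        · linarith
        · linarith
      linarith
    set h2 : ℝ := min (2 * h1) (S - m) with hh2
    have v1 : h2 ≤ 2 * h1 := min_le_left _ _
    have v2 : h2 ≤ S - m := min_le_right _ _
    have v3 : S - m + h1 ≤ 2 * h2 := by
      have : (S - m + h1) / 2 ≤ h2 := le_min (by linarith) (by linarith)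
      linarith
    have hcard : (Finset.univ : Finset (Fin N)).card = N := by simp
    have w1 : N < m + 1 → 2 * h1 - h2 = 0 := by
      intro h
      have hN : N = m := by omega
      have : S ≤ m := by rw [← hN]; exact hSN
      linarith
    have w2 : N < m + 2 → 2 * h2 - h1 - (S - m) = 0 := by
      intro h
      rcases Nat.lt_or_ge N (m + 1) with h' | h'
      · have hN : N = m := by omega
        have : S ≤ m := by rw [← hN]; exact hSN
        linarith
      · have hN : N = m + 1 := by omega
        have h3 := l1 Finset.univ (by rw [hcard, hN])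
        rw [← hS] at h3
        have h4 : h2 ≤ S - m := v2
        linarith
    have w3 : N < m + 3 → S - m - h2 = 0 := by
      intro h
      rcases Nat.lt_or_ge N (m + 2) with h' | h'
      · have h5 := w2 h'
        rcases Nat.lt_or_ge N (m + 1) with h'' | h''
        · have hN : N = m := by omega
          have : S ≤ m := by rw [← hN]; exact hSN
          linarith
        · have hN : N = m + 1 := by omega
          have h3 := l1 Finset.univ (by rw [hcard, hN])
          rw [← hS] at h3
          linarith
      · have hN : N = m + 2 := by omega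
        have h3 := l2 Finset.univ (by rw [hcard, hN])
        rw [← hS] at h3
        have h4 : S - m ≤ h2 := le_min h3 le_rfl
        linarith
    refine ⟨_, UP_law δ hδ0 hδ1 m (by omega) hmN (1 - h1) (2 * h1 - h2)
      (2 * h2 - h1 - (S - m)) (S - m - h2) (by linarith) (by linarith) (by linarith)
      (by linarith) w1 w2 w3 (by ring) (by rw [← hS]; ring) ?_ ?_, ?_⟩
    · intro J hJ
      have := l1 J hJ
      linarith
    · intro J hJ
      have h3 := l2 J hJ
      have h4 := hJS J
      have : ∑ i ∈ J, δ i - m ≤ h2 := le_min h3 (by linarith)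
      linarith
    · rw [UP_sum N m (1 - h1) (2 * h1 - h2) (2 * h2 - h1 - (S - m)) (S - m - h2)
        (fun h => absurd h (by omega)) w1 w2 w3 bmax]
      have e0 : bmax m = (m + 1) / 3 := by
        unfold bmax
        rw [if_pos (by omega)]
      have e1 : bmax (m + 1) = (m - 2) / 3 := by
        unfold bmax
        rw [if_neg (by omega), if_neg (by omega)]
        push_cast
        ring
      have e2 : bmax (m + 2) = (m + 1) / 3 := by
        unfold bmax
        rw [if_neg (by omega), if_pos (by omega)]
        push_cast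
        ring
      have e3 : bmax (m + 3) = (m + 4) / 3 := by
        unfold bmax
        rw [if_pos (by omega)]
        push_cast
        ring
      rw [e0, e1, e2, e3]
      linarith

end Pool.Agent.Helper41.EC
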